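import Mathlib
import Pool.Agent.H395.Local.Rel
import Pool.Graph.R_seed8.Y1.CT.Thms

/-!
# The noncommutative standard conjecture D and products with abelian varieties: local conditions
on the classes of the embeddings of the CM fields

**Classes.** Let `K i` (`i` in a finite set) be CM fields, `X` the set of all complex embeddings
of all fields `K i` and `x ↦ x̄` the complex conjugation. Two elements `x`, `y` of `X` are
*flipped* if some automorphism of `ℂ` maps one of them to itself and the other one to its
conjugate, or maps `x` to `y` and `y` to `x̄`. The classes are those of the equivalence relation
generated by the pairs which are not flipped (`SameClass`); a class is stable under the complex
conjugation. For the typical family of CM fields each class is a pair `x`, `x̄`. The fields of the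
family are arbitrary: fields which are not independent of each other can have embeddings in the
same class.

**Types.** Let `p` be a prime number, `π i` a Weil number in `K i` all powers of which generate `K
i`. For `x : K i → ℂ` let `q(x)` be twice the difference of the slope of `x(π i)` and the middle
slope (`IsDeviation`). Suppose that every field `K i` has **one** embedding whose class is of one
of the following types (`LocalType`, `LocalTypes`); the type may depend on `i`.

* *Dominated*: for each field with an embedding in the class there is an embedding `z` of this
  field such that `2 |q(z)| > ∑ |q(w)|`, the sum over the `w ≠ z, z̄` **in the class of `z`**, not
  over all embeddings; or, for some prime number `ℓ`, such that `|q(z)|_ℓ > |q(w)|_ℓ` for these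
  `w`. Here one can use arbitrary positive weights of the fields (`DominatedType`).
* *Unitary*: the class consists of translates of `x`, it is the union of a block `R` and of its
  conjugate, `R` has `r ^ k` elements, `r` a prime number, `∑ q ≠ 0` over `R`, and `q = α n + β`
  on `R` with integers `n` whose sum over `R` is not divisible by `r` (`UnitaryType`).
* *Primitive*: the class consists of translates of `x` and has `b` pairs, where `b` is one, or
  prime, or `b = [K i : F]` for a CM subfield `F` such that the automorphisms of `ℂ` act doubly
  transitively on the extensions of an embedding of `F`; and for the CM subfields `F` with `[K i :
  F] = b` the norm of `π i` to `F` is not supersingular (`PrimitiveType`).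
* *Irreducible*: the rational functions on the class which change their sign under complex
  conjugation are an irreducible representation of the automorphisms of `ℂ` which preserve the
  class (`IrreducibleType`).
* Two types that are copied from the library, `OddType` (the class has one pair, a prime number of
  pairs, an odd number of pairs which are permuted doubly transitively, or a power of two and an
  odd permutation; the deviations are odd multiples of one number) and `SumType` (the class has `r
  ^ k` pairs, `r` prime, and the `q(w)` are proportional to integers whose sums over the half
  systems of the class are not divisible by `r`).

**The varieties.** Let `π i` be Weil numbers for `q = p ^ a` in the fields `K i` which satisfy the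
hypothesis `LocalTypes`, and let `f i` be monic polynomials whose complex roots are conjugates of
`π i` (`IsPolyOf`), for instance the characteristic polynomials of Frobenius of the abelian
varieties in the isogeny classes of the `π i` over the field with `q` elements. Let `A` be an
abelian variety over the field with `Q = q ^ s` elements which is isogenous to a product of powers
of abelian varieties coming from the field with `q` elements, with characteristic polynomials `f
i`. Let `Z` be **any** smooth projective variety over the field with `Q` elements such that the
eigenvalues `ρ` of Frobenius on its cohomology and their conjugates are independent of the fields
`K i` (`Independent`): for each complex embedding `ψ` of `K i` there is an automorphism `τ` of `ℂ`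
which fixes a power of `ρ` and is the complex conjugation on `ψ (K i)`. This is so if the
eigenvalues have powers in a number field which is linearly disjoint from the normal closures of
the `K i`, or powers in a totally real field (take for `τ` the complex conjugation).

Let `𝒜` be a smooth proper dg category whose noncommutative motive with rational coefficients is a
direct summand of the one of `Z`, for instance the category of perfect complexes on `Z`, or a
component of a semi-orthogonal decomposition of it. It is given by an idempotent `e` in the ring
`K_0(Z × Z)_ℚ`, which is identified with `CH(Z × Z)_ℚ` (all degrees together) by the Chern
character multiplied by the square root of the Todd class. The noncommutative motive of the dg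
category `perf(A) ⊗ 𝒜` is `(A × Z, 1 × e)`.

**The theorem** (`NCHomTimes`, library). There are finitely many products `D j` of divisors on `A`
such that `K_0(perf(A) ⊗ 𝒜)_ℚ = ⨁ D j × K_0(𝒜)_ℚ` modulo homological equivalence, and the same for
the numerically trivial classes (the kernels of the Euler pairings). In particular **the
noncommutative standard conjecture of type D for `perf(A) ⊗ 𝒜` is equivalent to the one for `𝒜`**;
no motive is assumed to be finite-dimensional. (`TP(𝒜)` is the direct summand cut out by `e` of
the crystalline cohomology of `Z`. The Frobenius endomorphism acts on `CH^i(A × Z)_ℚ` as
multiplication by `Q ^ i`.) So the conjecture holds for `perf(A) ⊗ 𝒜` if it is known for `𝒜`, for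
instance if `𝒜` is a component of `perf(Z)` for a surface `Z`; in particular for `perf(A)`.

The framework (`TheoryData`, `IsChow`, `IsWeil`) is the one of the library: the Chow groups `C`
with their pull-backs, push-forwards and products, and a Weil cohomology theory `H` with
coefficients in an algebraically closed field, on a class `𝒱` of smooth proper varieties over `k`.

**What was known.** For `𝒜 = perf(k)` the conjecture `D(A)` is known if all Tate classes are
products of divisor classes (prime dimension, Tankeev; one pair of slopes different from one half,
Lenstra and Zarhin); for all abelian varieties over finite fields homological and numerical
equivalence agree for infinitely many `ℓ` (Clozel), but for crystalline cohomology this is open.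
In the library: almost all slope types of typical CM fields (`TypicalFields`, with the definition
`NCHomTimes` used here). New here: the dominated types (inside of a class, usual or `ℓ`-adic
absolute value, with weights), the unitary type, the primitive and irreducible types for the
classes defined by flips, and their combination for arbitrary families of fields, which need not
be independent of each other.

**Examples** (proved in `Pool.Agent.H395.Local.criteria`). For a single CM field `E` and a Weil
number `π` of weight `m` all powers of which generate `E` the hypothesis `LocalTypes` is satisfied
if `4 |s(ψ) - m / 2| > ∑ |s(φ) - m / 2|` for one embedding `ψ`, the sum over all embeddings, `s`
the slope; and also if `E` contains an imaginary quadratic field `F` such that `[E : F] = r ^ k`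
is a power of a prime number `r`, and `π` is ordinary and the number `s` of the embeddings which
agree with one embedding on `F` and at which `π` is a unit is not divisible by `r`, `2 s ≠ r ^ k`
(multiplication by `F` of signature `(s, r ^ k - s)`).

**The proof.** A multiplicative relation between the conjugates of the `π i` gives a function `c`
on `X` with integral values, `c(x̄) = - c(x)` and `∑ c(x) q(τ x) = 0` for all `τ`. The correlation
of two flipped elements vanishes, so that the sum can be restricted to any class (library). One
has to show that `c = 0` on the class. Dominated type: one moves an element of the class (and of
its translates) where `|c| / t` has its largest value, for the usual or the `ℓ`-adic absolute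
value, to the element `z`, and compares the absolute values of the terms. Unitary type: since `∑ q
≠ 0` over `R`, the sum of the values of `c` over `R` is zero, and so `∑ c(x) n(τ x) = 0` for all
`τ` which preserve `R`. If the lattice of these `c` is not zero it contains an element which is
not divisible by `r` and is invariant modulo `r` under a Sylow `r`-subgroup of the group on `R`;
this subgroup is transitive on `R`, hence `c` is constant modulo `r` and `r ∣ ∑ n`. Primitive
type: if `b` is prime, an element of a Sylow subgroup has two orbits of length `b` on the class,
exchanged by the conjugation, and the cyclotomic polynomial is irreducible. So either all
translates of `q` agree at two different elements of the class, and then a power of `π i` does not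
generate `K i`; or the sums of `q` over the translates of the orbit are zero, the orbit is a block
that belongs to a CM subfield `F` with `[K i : F] = b`, and the norm of `π i` to `F` is
supersingular (Kronecker). The doubly transitive case is similar. Irreducible type: clear, as `q`
does not vanish on all translates.

**The relations with the eigenvalues of `Z`** (library). Suppose that the product of `ρ` and of
some eigenvalues of `A`, no two of them complex conjugate, is a power of `q` up to a root of
unity. The difference of this relation and of its image under an automorphism which fixes a power
of `ρ` is a relation between the conjugates of the `π i`; so it is trivial and the exponents are
invariant under these automorphisms; one of them is the complex conjugation on `K i`, so they are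
zero. Hence only the eigenvalues `Q ^ j` of `A`, which belong to products of divisor classes,
contribute.
-/

set_option autoImplicit false

namespace Pool.Agent.Results.MP_28af06_ag.LocalClassTypes

open NumberField Polynomial Pool.Agent.Y1.CT Pool.Agent.H395.Local

/-- **The noncommutative standard conjecture of type D for `perf(A) ⊗ 𝒜` is equivalent to the one
for `𝒜`, for all abelian varieties `A` whose Weil numbers have classes of local types, and all
independent `𝒜`.** -/
theorem result (p : ℕ) [Fact p.Prime] (a : ℕ) (ha : 0 < a) (I : Type) [Fintype I] (K : I → Type)
    [∀ i, Field (K i)] [∀ i, NumberField (K i)] [∀ i, IsCMField (K i)] (π : ∀ i, K i)
    (hint : ∀ i, IsIntegral ℤ (π i))
    (hw : ∀ i, π i * IsCMField.complexConj (K i) (π i) = (p : K i) ^ a)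
    (hloc : LocalTypes p (fun _ => a) π) (f : I → ℤ[X]) (hf : ∀ i, IsPolyOf (π i) (f i)) :
    NCHomTimes K (p ^ a) f :=
  ncHomTimes (one_lt ha) (noRel' hint hw hloc hf)

end Pool.Agent.Results.MP_28af06_ag.LocalClassTypes
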