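import Mathlib
import Pool.Agent.H298.Core.WeilRel
import Pool.Graph.R_pool_sql_team_seeded_2aa45f1a.Q64.M.Dg
import Pool.Graph.R_pool_sql_team_seeded_2aa45f1a.Q64.L.InstC
import Pool.Agent.H298.Core.Double

/-!
# The noncommutative standard conjecture D for the tensor products of arbitrary dg categories with
abelian varieties whose CM fields have irreducible odd part or primitive core

**In short.** Let `K` be a CM field of degree `2 g`, `K₀` its maximal real subfield and `2 ^ v`, `1
≤ v ≤ g`, the degree of the Galois closure of `K` over the Galois closure of `K₀` (typically `v =
g`). The theorem is for the Weil numbers `π` all powers of which generate `K`, in the following
cases (`FieldCriteria`, `DoublyCriteria`), among others: **(a) `v > g / 3`; (b) the slopes of `π`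
have odd denominators, for example `π` is ordinary, and `v > g / 4`, or `g` is the product of two
prime numbers and `v > 1`, or `g` is prime, or `K` has few divisors in the sense of `FewDivisors`;
(c) the Galois group of `K₀` is doubly transitive, and `g` is odd, or `g - 1` is a prime number, or
at least `g` is none of the numbers `10, 16, 26, 28, 36, …` (`TwoGraphDegree`); or it is triply
transitive, for example the symmetric group, or the alternating group if `g ≥ 5`, `g ≥ 3`; and no
norm of `π` to an imaginary quadratic field is supersingular** (this is so if `g` is odd and `π` is
ordinary). The general hypothesis (`IsCoreWeil`) is explained below.

**Cores.** Let `K` be a CM field of degree `2 g`, `X` the set of its complex embeddings. The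
automorphisms of `ℂ` which map all elements of `X` to themselves or to their complex conjugates are
called sign changes. The first core of `φ : X` consists of the `ψ : X` which are moved by the same
sign changes as `φ`. If one uses all automorphisms which map the elements of the first core to
themselves or to their conjugates, one obtains the second core, inside of the first one, and so on
(`coreOf`). The cores of the same index have the same number `2 c` of elements, `c` divides `g`, and
the smallest such number `c` is the core number of `K`. It is one for the typical CM field (all sign
patterns occur). If `g` is prime it is one or `g`; if `g` is a product of two prime numbers it is
one or prime as soon as there is a sign change different from the identity and the complex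
conjugation. If a prime number `ℓ` divides the discriminant of `K`, but not the discriminant of the
maximal real subfield, then `ℓ ^ c` divides the discriminant of `K`; so `c` is one or prime if there
is no other divisor `d` of `g` such that `ℓ ^ d` divides the discriminant of `K` (`FewDivisors`).

**The Weil numbers.** Let `p` be a prime number, `q = p ^ a`, let `K i` (`i` in a finite set) be CM
fields and `π i` Weil numbers for `q` in `K i` such that each power `(π i) ^ n`, `n ≥ 1`, generates
`K i`. By Honda and Tate they correspond to the abelian varieties over the field with `q` elements
which are geometrically simple with commutative endomorphism ring, and to other abelian varieties.
Suppose that for each `K = K i` one of the following conditions holds (`IsCoreWeil`).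

* The rational functions on `X` which change their sign under complex conjugation are an irreducible
  representation of the automorphisms of `ℂ` (`OddIrreducible`), for example because the core number
  of `K` is one.
* There is a core with `c` pairs of embeddings, and `c` is a prime number, or `c = [K : F]` for a
  subfield `F`, not totally real, such that the automorphisms of `ℂ` act doubly transitively on the
  extensions to `K` of an embedding of `F` (`PrimitiveCore`); and there is **no** subfield `F` with
  `[K : F] = c`, not totally real, in which the norm `N` of `π i` is supersingular
  (`SupersingularNorm`; this means that `N ^ 2 / q ^ c` is a root of unity).

The condition on the norms in the second case is necessary and sufficient for the absence of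
relations between the conjugates of `π i` (`NormCriteria`), and so of exotic Tate classes on the
powers of its abelian variety; it is satisfied if `c = 2`, if `c` is odd and the slopes of `π i`
have odd denominators (for example in the ordinary case), and if all subfields `F` with `[K : F] =
c` are totally real. There are no other conditions on `π i`, its slopes, the decomposition of `p` in
`K i`, the degree or the Galois group of `K i`. The fields `K i` are pairwise independent
(`PairwiseIndep`; no condition if there is only one field). Let `f i` be monic polynomials whose
complex roots are conjugates of `π i` (`IsPolyOf`), for instance powers of the characteristic
polynomials of Frobenius. Let `A` be an abelian variety over the field with `Q = q ^ s` elements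
which is isogenous to a product of powers of abelian varieties coming from the field with `q`
elements, with characteristic polynomials `f i`.

**The theorem** (`DgStandardDReduces`). Let `ℰ` be **any** smooth proper dg category over the field
with `Q` elements such that the eigenvalues of the cyclotomic Frobenius on `TP_0(ℰ)` and `TP_1(ℰ)`
(with `p` inverted) are algebraic numbers, and they and their conjugates are unrelated to the fields
`K i` (`UnrelatedRoots`). A complex number `ρ ≠ 0` is unrelated to the fields `K i` (`Unrelated`) if
a rational function on the complex embeddings of `K i` which changes its sign under complex
conjugation and is invariant under all automorphisms of `ℂ` that fix a power of `ρ` is zero. This is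
so if for each embedding `ψ` of `K i` some automorphism which fixes a power of `ρ` is the complex
conjugation on `ψ (K i)`, for instance if a power of `ρ` is in a totally real field, or in a number
field `F` from which `K i` is separated by a prime number (see below).

Then **the noncommutative standard conjecture of type D (the assertion of Q1) is true for `perf(A) ⊗
ℰ` if and only if it is true for `ℰ`.** More precisely, `K_0(perf(A) ⊗ ℰ)_ℚ` modulo homological
equivalence is the direct sum of the products of finitely many products of divisors on `A` with
`K_0(ℰ)_ℚ` modulo homological equivalence. For instance, the assertion is true for `perf(A) ⊗ ℰ` if
`ℰ` has a full exceptional collection, or if `TP_0(ℰ)` is spanned by classes of objects. A general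
smooth proper dg category has no Frobenius endomorphism: the cyclotomic Frobenius is not induced by
an endomorphism of `ℰ`. Only the Frobenius endomorphism of `A` is used.

Part two (`AllCriteria`) contains the cases (a), (b) and (c) above (`FieldCriteria`,
`DoublyCriteria`) and criteria by degrees, sign changes and discriminants: for the cores (`c`
divides `g`, `g` itself is possible; if `g` is the product of two prime numbers then a sign change
which moves some embeddings but not all gives a core with `c = 1` or `c` prime; the discriminant
criterion `FewDivisors`), for the norms (`NormCriteria`), for the independence of the fields, and
for the condition on the eigenvalues. A prime number `ℓ` separates `K i` from a number field `F` if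
`ℓ` divides the discriminant of `K i` but not the one of its maximal real subfield and not the one
of `F`. The fields `K i` are pairwise independent if any two of them are separated by a prime number
(in one direction). All nonzero elements of `F` are independent of the `K i`, in particular
unrelated to them, if all `K i` are separated from `F`. So for example, if `ℓ` divides the
discriminant of a CM field `K` and `ℓ ^ 2` does not, then the theorem holds for all Weil numbers `π`
in `K` with `ℚ(π ^ n) = K` for all `n`, and all varieties whose eigenvalues lie in fields of a
discriminant prime to `ℓ`.

What is used of `A` are known theorems (`IsAbelian`): `H(A)` is generated by `H^1`, Frobenius is
diagonalizable on `H^1` (Weil), the theorem of Tate on divisors, and the nilpotence of homologically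
trivial correspondences (Kimura). The topological periodic cyclic homology `R` of `ℰ` and `perf(A) ⊗
ℰ` is modelled by `RelData`: the groups of bidegree `(i, j)` are `TP_(2 j - i)(ℰ)` and `TP_(2 j -
i)(perf(A) ⊗ ℰ)`, with `p` inverted (the first part of this group, for the dg category of a variety
`X`, is `H^i(X)(j)`). The formal properties in `IsRel`: the product with a class of codimension `c`
on `A` (an element of `K_0(A)_ℚ = CH(A)_ℚ`) has the bidegree `(2 c, c)`; the push-forward to `ℰ`,
the projection formula and the operation of the correspondences of `A`. The operator `frobN` is `Q ^
j` times the cyclotomic Frobenius of `ℰ`, and `frobM` is `Q ^ j` times the cyclotomic Frobenius of
`perf(A) ⊗ ℰ`, composed with the inverse of the operation of the Frobenius endomorphism of `A`. So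
the elements in `InvN`, `InvM` of bidegree `(2 j, j)` are the elements of `TP_0` which are fixed by
the cyclotomic Frobenius. The theory `T` is `K_0` modulo homological equivalence, in all the
bidegrees `(2 j, j)`, with the injective map to `R` (`IsCycles`), and `B` is the Euler pairing, for
which the rules in `IsEulerPairing` hold.

**What was known.** For the powers of one abelian variety of prime dimension and a point the
conjecture of Tate is due to Tankeev (and Ribet, Lenstra, Zarhin); in the library there are products
with unrelated varieties for almost all slope types of CM fields (`AllCMTypesDgCategories`, whose
machine is used), and for families of Weil numbers outside of finitely many exceptional slope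
vectors. New here are the abelian varieties of all dimensions in the fields with primitive cores,
with a condition on the norms which is necessary and sufficient, without exceptional types.

**The proof.** It is sufficient to show for each field `K` that the function `w`, the slope of `φ
(π)` minus one half, on the set `X` is not orthogonal to a nonzero space of odd functions which is
stable under the automorphisms of `ℂ`. If the odd functions are irreducible this is clear. Let `r`
be an element of such a space with integral values. By the sign changes one can cut `r` down; this
gives, by induction on the size of the support and on the index of the core, a relation which is
supported in one core. The automorphisms preserving the core act transitively on it. If it has `2 c`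
elements with a prime number `c`, then a Sylow subgroup contains an element which has two orbits of
length `c` on the core, exchanged by the complex conjugation. Since the cyclotomic polynomial is
irreducible, either `w (τ φ) = w (τ φ')` for all `τ` with two different `φ`, `φ'` of the core, or
the sums of `w` over the translates of one orbit are zero, and the orbit consists of the extensions
of an embedding of a subfield `F` with `[K : F] = c`, which is not totally real. In the doubly
transitive case the extensions of an embedding of `F` are one half of the core (a sign change moves
all of them or none), and an average over a stabilizer gives the same two alternatives. In the first
case `φ (π)` and `φ' (π)` have the same absolute values at all places of all conjugates, so they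
differ by a root of unity, and a power of `π` does not generate `K`. In the second case the norm of
`π` in `F` is supersingular. Conversely a supersingular norm is a relation, by Kronecker's theorem.
For the cases (a), (b) and (c) one uses that a sign change is determined by the first cores which it
moves, so that `2 ^ v ≤ 2 ^ (g / c)`, and that for a triply transitive group either the odd
functions are irreducible or the signs are given by a character of the group, so that `K` contains
an imaginary quadratic field. If the group is doubly transitive, let `V` be a space of odd functions
which is stable under the automorphisms, neither zero nor everything. The values of its reproducing
kernel at two embeddings in different pairs are `β` or `-β`, and `β ≠ 0`; the signs form a regular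
two-graph on the `g` pairs, with the eigenvalues `r` on `V` and `-s` on the orthogonal space, `r s =
g - 1`, `(r + s) dim V = g s`. If `g` is odd then `r` or `s` is even, and a descent modulo two shows
that the nonzero functions in one of the two spaces have no zeros; by the maximum principle this is
also true if `r` or `s` is `1` or `-1`. So this space has dimension one, and the signs of its
functions give an imaginary quadratic subfield.

The reduction of `perf(A) ⊗ ℰ` to `ℰ` is the one of the library: since `A` has no relations with
unrelated eigenvalues, the correspondence on `A` given by the sum of the products of dual classes of
products of divisors acts as the identity on the part of the theory of `perf(A) ⊗ ℰ` in question.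
-/

set_option autoImplicit false

namespace Pool.Agent.Results.MP_28af06_ag.SmallCoreFields

open NumberField Polynomial Pool.Agent.H977R3.CM Pool.Agent.Y1.CT Pool.Agent.H298.Core
  Pool.Agent.Q64.L Pool.Agent.Q64.M

/-- **The noncommutative standard conjecture D holds for `perf(A) ⊗ ℰ` if and only if it holds for `ℰ`,
for all abelian varieties `A` whose Weil numbers lie in independent CM fields with irreducible odd
part or primitive core, and all unrelated dg categories `ℰ`.** -/
theorem result :
    (∀ (p : ℕ) [Fact p.Prime] (a : ℕ), 0 < a → ∀ (I : Type) [Fintype I] (K : I → Type)
      [∀ i, Field (K i)] [∀ i, NumberField (K i)] [∀ i, IsCMField (K i)], PairwiseIndep K →
      ∀ (π : ∀ i, K i) (f : I → ℤ[X]), (∀ i, IsCoreWeil p a (π i)) →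
      (∀ i, IsPolyOf (π i) (f i)) → DgStandardDReduces (UnrelatedRoots K) (p ^ a) f) ∧ AllCriteria :=
  ⟨fun _ _ _ ha _ _ _ _ _ _ hK _ _ hπ hf =>
    dgStandardDReduces (Nat.one_lt_pow ha.ne' (Fact.out : Nat.Prime _).one_lt)
      (good_unrelated (noRel_unrelated ha hK hπ hf)), allCriteria_hold⟩

end Pool.Agent.Results.MP_28af06_ag.SmallCoreFields
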